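import Pool.Agent.SPV.StmtsA

/-!
# Squad SPV, row SMK: exponential sums with few terms have at most q/2 zeros
-/

set_option autoImplicit false

namespace Pool.Agent.SPV.H44

open Finset Polynomial

private theorem pw {K : Type} [Field K] {q : ℕ} {x : K} (h : x ^ q = 1) {i j : ℕ}
    (hij : i ≡ j [MOD q]) : x ^ i = x ^ j := by
  rw [pow_eq_pow_mod i h, pow_eq_pow_mod j h, hij]

private theorem es_mod {K : Type} [Field K] {g : K} {q : ℕ} (hg : g ^ q = 1) (B : Finset ℕ)
    (b : ℕ → K) {i j : ℕ} (hij : i ≡ j [MOD q]) : es g B b i = es g B b j := by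
  unfold es
  refine sum_congr rfl fun a _ => ?_
  have h1 : (g ^ a) ^ q = 1 := by rw [← pow_mul, mul_comm, pow_mul, hg, one_pow]
  rw [pw h1 hij]

/-- two values in the same quarter -/
private theorem quarter {q u v : ℕ} (h : 4 * u / q = 4 * v / q) (hq : 0 < q) :
    v ≤ u + q / 4 := by
  have h1 := Nat.div_add_mod (4 * u) q
  have h2 := Nat.div_add_mod (4 * v) q
  have h3 := Nat.mod_lt (4 * u) hq
  have h4 := Nat.mod_lt (4 * v) hq
  rw [h] at h1
  omega

theorem smk : SmkStmt := by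
  intro K _ _ g q hq hg B b hB hBne hb hcard
  have hq0 : 0 < q := hq.pos
  have hgq : g ^ q = 1 := hg.pow_eq_one
  -- pigeonhole
  have hpig : ∃ l₁ ∈ range q, ∃ l₂ ∈ range q, l₁ ≠ l₂ ∧
      (fun a : B => 4 * (l₁ * a.1 % q) / q) = (fun a : B => 4 * (l₂ * a.1 % q) / q) := by
    apply Finset.exists_ne_map_eq_of_card_lt_of_maps_to
      (t := Fintype.piFinset fun _ : B => range 4)
    · rw [Fintype.card_piFinset, prod_const, card_univ, Fintype.card_coe, card_range, card_range]
      exact hcard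
    · intro l _
      rw [mem_coe, Fintype.mem_piFinset]
      intro a
      rw [mem_range, Nat.div_lt_iff_lt_mul hq0]
      have := Nat.mod_lt (l * a.1) hq0
      omega
  have hpig2 : ∃ l₁ l₂ : ℕ, l₁ < l₂ ∧ l₂ < q ∧
      ∀ a ∈ B, 4 * (l₁ * a % q) / q = 4 * (l₂ * a % q) / q := by
    obtain ⟨l₁, h1, l₂, h2, hne, heq⟩ := hpig
    rw [mem_range] at h1 h2
    rcases Nat.lt_or_gt_of_ne hne with h | h
    · exact ⟨l₁, l₂, h, h2, fun a ha => congrFun heq ⟨a, ha⟩⟩
    · exact ⟨l₂, l₁, h, h1, fun a ha => (congrFun heq ⟨a, ha⟩).symm⟩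
  obtain ⟨l₁, l₂, hlt, hl2, hquart⟩ := hpig2
  obtain ⟨l, hl⟩ : ∃ l, l = l₂ - l₁ := ⟨_, rfl⟩
  have hl0 : 0 < l := by omega
  have hlq : l < q := by omega
  obtain ⟨e, he⟩ : ∃ e : ℕ → ℕ, ∀ a, e a = l₂ * a % q + q / 4 - l₁ * a % q := ⟨_, fun _ => rfl⟩
  have he1 : ∀ a ∈ B, e a + l₁ * a % q = l₂ * a % q + q / 4 := by
    intro a ha
    have h1 := quarter (hquart a ha).symm hq0
    rw [he a]
    omega
  have he2 : ∀ a ∈ B, e a ≤ 2 * (q / 4) := by
    intro a ha
    have h1 := quarter (hquart a ha) hq0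
    have h2 := he1 a ha
    omega
  have he3 : ∀ a ∈ B, q / 4 + l * a ≡ e a [MOD q] := by
    intro a ha
    have h1 : l₁ * a % q ≡ l₁ * a [MOD q] := Nat.mod_modEq _ _
    have h2 : l₂ * a % q ≡ l₂ * a [MOD q] := Nat.mod_modEq _ _
    have h3 : (q / 4 + l * a) + l₁ * a ≡ e a + l₁ * a [MOD q] := by
      calc (q / 4 + l * a) + l₁ * a = q / 4 + l₂ * a := by
            have h5 : l₂ = l + l₁ := by omega
            rw [h5]
            ring
        _ ≡ q / 4 + l₂ * a % q [MOD q] := h2.symm.add_left _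
        _ = e a + l₁ * a % q := by
            have := he1 a ha
            omega
        _ ≡ e a + l₁ * a [MOD q] := h1.add_left _
    exact h3.add_right_cancel' _
  have hcop : Nat.Coprime l q := by
    apply Nat.Coprime.symm
    rw [hq.coprime_iff_not_dvd]
    exact fun h => absurd (Nat.le_of_dvd hl0 h) (by omega)
  have heinj : ∀ a ∈ B, ∀ a' ∈ B, e a = e a' → a = a' := by
    intro a ha a' ha' h
    have h1 : q / 4 + l * a ≡ q / 4 + l * a' [MOD q] := by
      have h2 := he3 a ha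
      have h3 := he3 a' ha'
      rw [h] at h2
      exact h2.trans h3.symm
    have h4 : l * a ≡ l * a' [MOD q] := h1.add_left_cancel' _
    have h5 : a ≡ a' [MOD q] := Nat.ModEq.cancel_left_of_coprime (by
      rw [Nat.gcd_comm]; exact hcop) h4
    have h6 := mem_range.mp (hB ha)
    have h7 := mem_range.mp (hB ha')
    exact Nat.ModEq.eq_of_lt_of_lt h5 h6 h7
  -- the polynomial
  obtain ⟨P, hP⟩ : ∃ P : K[X], P = ∑ a ∈ B, C (b a) * X ^ (e a) := ⟨_, rfl⟩
  have hP0 : P ≠ 0 := by
    obtain ⟨a₀, ha₀⟩ := hBne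
    intro h
    have h1 : P.coeff (e a₀) = b a₀ := by
      rw [hP, finsetSum_coeff, Finset.sum_eq_single a₀]
      · rw [coeff_C_mul, coeff_X_pow, if_pos rfl, mul_one]
      · intro a ha hne
        rw [coeff_C_mul, coeff_X_pow, if_neg, mul_zero]
        exact fun h2 => hne (heinj a₀ ha₀ a ha h2).symm
      · exact fun h2 => absurd ha₀ h2
    rw [h, coeff_zero] at h1
    exact hb a₀ ha₀ h1.symm
  have hPd : P.natDegree ≤ 2 * (q / 4) := by
    rw [hP]
    apply natDegree_sum_le_of_forall_le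
    intro a ha
    exact le_trans (natDegree_C_mul_X_pow_le _ _) (he2 a ha)
  have hPe : ∀ s : ℕ, P.eval (g ^ s) = (g ^ s) ^ (q / 4) * es g B b (l * s) := by
    intro s
    have hx : (g ^ s) ^ q = 1 := by rw [← pow_mul, mul_comm, pow_mul, hgq, one_pow]
    rw [hP, eval_finsetSum]
    unfold es
    rw [mul_sum]
    refine sum_congr rfl fun a ha => ?_
    rw [eval_mul, eval_C, eval_pow, eval_X, ← pw hx (he3 a ha), pow_add]
    have h1 : (g ^ a) ^ (l * s) = (g ^ s) ^ (l * a) := by
      rw [← pow_mul, ← pow_mul]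
      congr 1
      ring
    rw [h1]
    ring
  obtain ⟨μ, hμ⟩ : ∃ μ, l * μ ≡ 1 [MOD q] := by
    obtain ⟨m, hm⟩ := Nat.exists_mul_mod_eq_one_of_coprime hcop hq.one_lt
    refine ⟨m, ?_⟩
    unfold Nat.ModEq
    rw [hm.2, Nat.mod_eq_of_lt hq.one_lt]
  have hlμ : ∀ t : ℕ, l * (μ * t) ≡ t [MOD q] := by
    intro t
    have h1 := hμ.mul_right t
    rw [one_mul, mul_assoc] at h1
    exact h1
  -- the zeros
  have hZ : ((range q).filter fun t => es g B b t = 0).card ≤ 2 * (q / 4) := by
    have h1 : ((range q).filter fun t => es g B b t = 0).card ≤ P.roots.toFinset.card := by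
      apply Finset.card_le_card_of_injOn (fun t => g ^ (μ * t))
      · intro t ht
        have ht' := (mem_filter.mp (mem_coe.mp ht)).2
        rw [mem_coe, Multiset.mem_toFinset, mem_roots hP0]
        show P.eval (g ^ (μ * t)) = 0
        rw [hPe, es_mod hgq B b (hlμ t), ht', mul_zero]
      · intro t ht t' ht' h
        have h2' : g ^ (μ * t) = g ^ (μ * t') := h
        have h2 : μ * t ≡ μ * t' [MOD q] := by
          rw [pow_eq_pow_mod (μ * t) hgq, pow_eq_pow_mod (μ * t') hgq] at h2'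
          exact hg.pow_inj (Nat.mod_lt _ hq0) (Nat.mod_lt _ hq0) h2'
        have h3 : t ≡ t' [MOD q] :=
          ((hlμ t).symm.trans (h2.mul_left l)).trans (hlμ t')
        have h4 := mem_range.mp (mem_filter.mp (mem_coe.mp ht)).1
        have h5 := mem_range.mp (mem_filter.mp (mem_coe.mp ht')).1
        exact Nat.ModEq.eq_of_lt_of_lt h3 h4 h5
    exact le_trans h1 (le_trans (Multiset.toFinset_card_le _) (le_trans (card_roots' P) hPd))
  have hsum := Finset.card_filter_add_card_filter_not (s := range q) (fun t => es g B b t = 0)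
  rw [card_range] at hsum
  have h6 : ((range q).filter fun t => ¬ es g B b t = 0).card =
      ((range q).filter fun t => es g B b t ≠ 0).card := rfl
  rw [← h6]
  omega

end Pool.Agent.SPV.H44
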